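import Pool.Agent.R661.QKer

/-!
The conjecture `c_{d,q} = 1/(d+1)` for all `d ≥ 1`, `q ≥ 3` is false: it fails for `q = 3` and all
`d ≥ 4 ^ 13`, and in fact `c_{d,3}` is at least of the order `log d / d`.
-/

namespace Pool.Agent.Results.MP_32aa3b_co.LargeInDegree

open Pool.Agent.R661.QKer

theorem result :
    (¬ ∀ d q : ℕ, 1 ≤ d → 3 ≤ q → IsLeast (Good d q) (1 / ((d : ℝ) + 1))) ∧
    (∀ d : ℕ, 4 ^ 13 ≤ d → ∃ (V : Type) (_ : Fintype V) (A : V → V → Prop),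
      (∀ v, ¬ A v v) ∧ HasMinInDegree A d ∧
      ∀ Q : Finset V, IsQKernel A 3 Q → Fintype.card V < (d + 1) * Q.card) ∧
    (∀ d : ℕ, 4 ≤ d → ∀ c ∈ Good d 3, (1 + Real.logb 4 d) / (15 * d) ≤ c) := by
  have key : ∀ d : ℕ, 4 ^ 13 ≤ d → ∃ (V : Type) (_ : Fintype V) (A : V → V → Prop),
      (∀ v, ¬ A v v) ∧ HasMinInDegree A d ∧
      ∀ Q : Finset V, IsQKernel A 3 Q → Fintype.card V < (d + 1) * Q.card := by
    intro d hd
    obtain ⟨V, hV, A, hA, hmin, hcard, hker⟩ := main_bound 13 d (by norm_num) hd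
    refine ⟨V, hV, A, hA, hmin, fun Q hQ => ?_⟩
    have h1 := hker Q hQ
    have h2 : (d + 1) * (13 + 2) ≤ (d + 1) * Q.card := Nat.mul_le_mul_left _ h1
    omega
  refine ⟨?_, key, fun d hd c hc => good_lower d hd c hc⟩
  intro hall
  obtain ⟨V, hV, A, hA, hmin, hker⟩ := key (4 ^ 13) le_rfl
  obtain ⟨Q, hQ, hQc⟩ := (hall (4 ^ 13) 3 (Nat.one_le_pow _ _ (by norm_num)) le_rfl).1 V hV A hA hmin
  have h1 := hker Q hQ
  have h2 : (Fintype.card V : ℝ) < (((4 ^ 13 : ℕ) : ℝ) + 1) * (Q.card : ℝ) := by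
    exact_mod_cast h1
  have h3 : (0 : ℝ) < ((4 ^ 13 : ℕ) : ℝ) + 1 := by positivity
  rw [one_div, ← div_eq_inv_mul, le_div_iff₀ h3] at hQc
  linarith

end Pool.Agent.Results.MP_32aa3b_co.LargeInDegree
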